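import Pool.Agent.helper28.PV.SpecS

/-!
# Row pvs:PRE (MP_376aaf_an)
-/

set_option autoImplicit false

open scoped Matrix Topology
open Filter

namespace Pool.Agent.PV

open Pool.Agent.CZ

theorem PRE (hFRE : FRE_stmt) (hHEP : HEP_stmt) (hHEF : HEF_stmt) (hHK0 : HK0_stmt) (hHK1 : HK1_stmt)
    (hKAP : KAP_stmt) : PRE_stmt := by
  intro S _ _
  obtain ⟨c, q₀, hc, hq₀, hker⟩ := hFRE S
  obtain ⟨f, hf, hfk⟩ := hHEF c fun k => hc.ne_zero k
  obtain ⟨Φ, hΦ⟩ := hHK1
  have hcont : Continuous (pbC ℂ f).toRingHom := ContinuousMap.continuous_precomp f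
  set φ := k1map (pbC ℂ f).toRingHom hcont with hφ
  -- the classes
  have hΦc : ∀ y : ℕ →₀ ℤ, Φ y = y.sum fun i n => n • kap (pr i) := by
    intro y
    conv_lhs => rw [← Finsupp.sum_single y]
    rw [Finsupp.sum, map_sum]
    refine Finset.sum_congr rfl fun i _ => ?_
    have h1 : Finsupp.single i (y i) = y i • Finsupp.single i (1 : ℤ) := by
      rw [Finsupp.smul_single, smul_eq_mul, mul_one]
    rw [h1, map_zsmul, hΦ]
  have hφk : ∀ k, φ (Φ (Finsupp.single k 1)) = Φ (c k) := by
    intro k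
    rw [hΦ, hΦc, hφ, hKAP.2.2.2.1 HE HE f hcont (pr k), hfk]
  have hφΦ : ∀ y : ℕ →₀ ℤ, φ (Φ y) = Φ (Finsupp.linearCombination ℤ c y) := by
    intro y
    induction y using Finsupp.induction_linear with
    | zero => simp only [map_zero]
    | add y z hy hz => rw [map_add, map_add, map_add, map_add, hy, hz]
    | single k n =>
      rw [Finsupp.linearCombination_single, map_zsmul, ← hφk]
      have h1 : Finsupp.single k n = n • Finsupp.single k (1 : ℤ) := by
        rw [Finsupp.smul_single, smul_eq_mul, mul_one]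
      rw [h1, map_zsmul, map_zsmul]
  refine ⟨HE, inferInstance, inferInstance, inferInstance, hHEP, f, hcont, hf, hHK0, ?_, ?_⟩
  · rw [injective_iff_map_eq_zero]
    intro x hx
    have h1 := hφΦ (Φ.symm x)
    rw [AddEquiv.apply_symm_apply] at h1
    have h2 : Φ (Finsupp.linearCombination ℤ c (Φ.symm x)) = 0 := by rw [← h1]; exact hx
    have h3 : Finsupp.linearCombination ℤ c (Φ.symm x) = 0 := by
      apply Φ.injective
      rw [h2, map_zero]
    have h4 : Φ.symm x = 0 := by
      apply hc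
      rw [h3, map_zero]
    have h5 : Φ (Φ.symm x) = Φ 0 := by rw [h4]
    rwa [AddEquiv.apply_symm_apply, map_zero] at h5
  · refine ⟨q₀.comp Φ.symm.toAddMonoidHom, hq₀.comp Φ.symm.surjective, ?_⟩
    ext x
    rw [AddMonoidHom.mem_ker]
    change q₀ (Φ.symm x) = 0 ↔ _
    rw [← AddMonoidHom.mem_ker, hker, ← Submodule.span_int_eq_addSubgroupClosure, Submodule.mem_toAddSubgroup,
      ← Finsupp.range_linearCombination, LinearMap.mem_range, AddMonoidHom.mem_range]
    constructor
    · rintro ⟨y, hy⟩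
      refine ⟨Φ y, ?_⟩
      change φ (Φ y) = x
      rw [hφΦ, hy, AddEquiv.apply_symm_apply]
    · rintro ⟨y, hy⟩
      refine ⟨Φ.symm y, ?_⟩
      apply Φ.injective
      rw [← hφΦ, AddEquiv.apply_symm_apply, AddEquiv.apply_symm_apply]
      exact hy

end Pool.Agent.PV
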