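import Pool.Agent.helper77.PV.SpecB

/-!
# Row pv:APX (MP_376aaf_an)
-/

set_option autoImplicit false

open scoped Matrix Topology
open Filter

namespace Pool.Agent.PV

open Pool.Agent.CZ

attribute [local instance] Matrix.linftyOpNormedRing Matrix.linftyOpNormedAlgebra

theorem APX (hZM : ZM_stmt) : APX_stmt := by
  classical
  intro B A _ _ _ _ _ _ al io u c hZ ι _ _ g ε hε
  have hM := hZM B A al io u c hZ ι
  obtain ⟨g₀, hdist, hg₀⟩ := Metric.dense_iff.1 hM.dense g ε hε
  rw [SetLike.mem_coe] at hg₀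
  have hz : ∀ n : ℤ, (0 : Matrix ι ι B).map io * ((uM ι u ^ n : (Matrix ι ι A)ˣ) : Matrix ι ι A) = 0 := by
    intro n
    rw [Matrix.map_zero _ (map_zero io), zero_mul]
  obtain ⟨y, hy⟩ : ∃ y : ℤ →₀ Matrix ι ι B, g₀ = y.sum (fun n b => b.map io *
      ((uM ι u ^ n : (Matrix ι ι A)ˣ) : Matrix ι ι A)) := by
    clear hdist
    induction hg₀ using Submodule.span_induction with
    | mem x hx =>
      obtain ⟨b, n, rfl⟩ := hx
      exact ⟨Finsupp.single n b, by rw [Finsupp.sum_single_index (hz n)]; rfl⟩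
    | zero => exact ⟨0, by rw [Finsupp.sum_zero_index]⟩
    | add x z _ _ hx hz' =>
      obtain ⟨y1, h1⟩ := hx
      obtain ⟨y2, h2⟩ := hz'
      refine ⟨y1 + y2, ?_⟩
      rw [Finsupp.sum_add_index' hz, ← h1, ← h2]
      intro n b1 b2
      rw [← add_mul]
      congr 1
      exact map_add io.mapMatrix b1 b2
    | smul t x _ hx =>
      obtain ⟨y1, h1⟩ := hx
      refine ⟨t • y1, ?_⟩
      rw [Finsupp.sum_smul_index' hz, h1, Finsupp.smul_sum]
      refine Finsupp.sum_congr fun n _ => ?_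
      have h3 : (t • (y1 n)).map io = t • (y1 n).map io := map_smul io.mapMatrix t (y1 n)
      rw [h3, smul_mul_assoc]
  obtain ⟨N, hN1, hN⟩ : ∃ N : ℕ, 1 ≤ N ∧ y.support ⊆ Finset.Icc (-(N : ℤ)) N := by
    refine ⟨y.support.sup Int.natAbs + 1, by omega, fun n hn => ?_⟩
    have h1 : n.natAbs ≤ y.support.sup Int.natAbs := Finset.le_sup (f := Int.natAbs) hn
    rw [Finset.mem_Icc]
    omega
  refine ⟨N, 2 * N, fun k => y ((k : ℤ) - N), by omega, ?_, ?_⟩
  · intro k hk
    by_contra hne
    have h1 := hN (Finsupp.mem_support_iff.2 hne)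
    rw [Finset.mem_Icc] at h1
    omega
  · have h1 : pX io u (fun k => y ((k : ℤ) - N)) (2 * N) *
        ((uM ι u ^ (-(N : ℤ)) : (Matrix ι ι A)ˣ) : Matrix ι ι A) = g₀ := by
      rw [hy, Finsupp.sum_of_support_subset _ hN _ (fun n _ => hz n)]
      unfold pX
      rw [Finset.sum_mul]
      refine Finset.sum_bij (fun k _ => (k : ℤ) - N) ?_ ?_ ?_ ?_
      · intro k hk
        rw [Finset.mem_range] at hk
        rw [Finset.mem_Icc]
        omega
      · intro a _ b _ hab
        omega
      · intro n hn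
        rw [Finset.mem_Icc] at hn
        exact ⟨(n + N).toNat, by rw [Finset.mem_range]; omega, by omega⟩
      · intro k _
        rw [mul_assoc, ← Units.val_mul, ← zpow_natCast, ← zpow_add]
        rfl
    rw [h1]
    rwa [Metric.mem_ball, dist_comm, dist_eq_norm] at hdist

end Pool.Agent.PV
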