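import Pool.Agent.helper72.PV.SpecH

/-!
# Row pvh:CYL (MP_376aaf_an)
-/

set_option autoImplicit false

open Finset

namespace Pool.Agent.PVH

open Pool.Agent.PV Pool.Agent.CZ

theorem CYL : CYL_stmt := by
  intro n h pr U hU x hx
  obtain ⟨V, hV, rfl⟩ := isOpen_induced_iff.1 hU
  obtain ⟨I, u, hI, hsub⟩ := isOpen_pi_iff.1 hV x.1 hx
  obtain ⟨k, hk⟩ : ∃ k, ∀ i ∈ I, i ≤ k := ⟨I.sup id, fun i hi => Finset.le_sup (f := id) hi⟩
  refine ⟨k, fun y hy => ?_⟩
  have h1 : ∀ j i, i + j = k → y.1 i = x.1 i := by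
    intro j
    induction j with
    | zero =>
      intro i hi
      have : i = k := by omega
      rw [this]
      exact hy
    | succ j ih =>
      intro i hi
      have h2 := ih (i + 1) (by omega)
      rw [(y.2 i).2, (x.2 i).2, h2]
  refine hsub ?_
  intro i hi
  have h3 := h1 (k - i) i (by have := hk i hi; omega)
  rw [h3]
  exact (hI i hi).2

end Pool.Agent.PVH
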