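import Pool.Agent.helper53.PV.SpecD

/-!
# Row pvd:DKA (MP_376aaf_an)
-/

set_option autoImplicit false

namespace Pool.Agent.PV

open Pool.Agent.CZ

theorem DKA_ext {X : Type} [TopologicalSpace X] {α : X ≃ₜ X} {a b : InvSt α} (h : ∀ k, a.φ k = b.φ k) : a = b := by
  cases a
  cases b
  congr
  exact LinearMap.ext h

theorem DKA : DKA_stmt := by
  classical
  intro X₀ Y X _ _ _ _ _ _ α₀ α π e r hE E _ _ _ K ψ hψ haff
  have hl : ∀ t : K, ∃ φ : InvSt α, ∀ k : C(X₀, ℝ), φ.φ (k.comp π) = (ψ t).φ k := fun t => hE.lift (ψ t)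
  choose φ hφ using hl
  refine ⟨φ, ⟨?_, ?_⟩, hφ, ?_⟩
  · intro t s hts
    apply hψ.1
    apply DKA_ext
    intro k
    rw [← hφ, ← hφ, hts]
  · intro χ
    obtain ⟨φ₀, h₀⟩ := hE.res χ
    obtain ⟨t, ht⟩ := hψ.2 φ₀
    refine ⟨t, hE.inj _ _ fun k => ?_⟩
    rw [hφ, ht, h₀]
  · intro g
    have happ : ∀ ε : ℝ, 0 < ε → ∃ a₀ : C(K, ℝ), IsAff a₀ ∧ ∀ t, |(φ t).φ g - a₀ t| ≤ ε := by
      intro ε hε
      obtain ⟨g₀, hg₀⟩ := hE.apx g ε hε
      obtain ⟨a₀, h1, h2⟩ := haff g₀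
      refine ⟨a₀, h1, fun t => ?_⟩
      rw [h2, ← hφ]
      exact hg₀ (φ t)
    have hcont : Continuous fun t : K => (φ t).φ g := by
      refine continuous_of_uniform_approx_of_continuous fun u hu => ?_
      obtain ⟨ε, hε, hsub⟩ := Metric.mem_uniformity_dist.1 hu
      obtain ⟨a₀, -, h2⟩ := happ (ε / 2) (by positivity)
      refine ⟨a₀, a₀.continuous, fun t => hsub ?_⟩
      rw [Real.dist_eq]
      exact lt_of_le_of_lt (h2 t) (by linarith)
    refine ⟨⟨_, hcont⟩, ⟨?_⟩, fun t => rfl⟩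
    intro x y z s t hs ht hst hz
    change (φ z).φ g = s * (φ x).φ g + t * (φ y).φ g
    refine eq_of_abs_sub_le_all fun ε hε => ?_
    obtain ⟨a₀, h1, h2⟩ := happ (ε / 2) (by positivity)
    have h3 := h1.aff x y z s t hs ht hst hz
    have e1 := abs_le.1 (h2 x)
    have e2 := abs_le.1 (h2 y)
    have e3 := abs_le.1 (h2 z)
    have hs1 : s ≤ 1 := by linarith
    rw [abs_le]
    have hst' : s * (ε / 2) + t * (ε / 2) = ε / 2 := by rw [← add_mul, hst, one_mul]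
    constructor
    · nlinarith [mul_le_mul_of_nonneg_left e1.1 hs, mul_le_mul_of_nonneg_left e1.2 hs,
        mul_le_mul_of_nonneg_left e2.1 ht, mul_le_mul_of_nonneg_left e2.2 ht]
    · nlinarith [mul_le_mul_of_nonneg_left e1.1 hs, mul_le_mul_of_nonneg_left e1.2 hs,
        mul_le_mul_of_nonneg_left e2.1 ht, mul_le_mul_of_nonneg_left e2.2 ht]

end Pool.Agent.PV
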